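import Pool.Agent.W606.PS.Stm

/-! PS-FSTEP: folding the levels after one step. -/

set_option autoImplicit false

open Set

namespace Pool.Agent.W701.PS.Fstep

open Pool.Agent.W606.PS

theorem main (h : S_FOLD) : S_FSTEP := by
  classical
  intro V _ G k hk Om Z F hF hP
  obtain ⟨Y, g, hY1, hY2, hY3, hY4, hY5, hY6, hY7⟩ := hP
  obtain ⟨p, p1, p2, p3, p4⟩ := h (2 * k) (by omega)
  refine ⟨Y, fun v => p (g v), hY1, hY2, ?_, ?_, ?_, ?_, hY7⟩
  · intro v hv
    have h1 := hF v hv
    show p (g v) = F v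
    rw [hY3 v hv]
    obtain ⟨n, hn⟩ := Int.eq_ofNat_of_zero_le h1.1
    rw [hn]
    exact p3 n (Nat.zero_le _) (by
      have := h1.2
      rw [hn] at this
      exact_mod_cast this)
  · intro u hu v huv
    exact p2 _ _ (hY4 u hu v huv)
  · intro v
    have := p1 (g v)
    push_cast at this
    exact this
  · intro a
    have hfin : {b : ℤ | 0 ≤ b ∧ b < 6 * (2 * k : ℕ) ∧ p b = a}.Finite :=
      (Set.finite_Ico (0 : ℤ) (6 * (2 * k : ℕ))).subset fun b hb => ⟨hb.1, hb.2.1⟩
    have h1 : hfin.toFinset.card ≤ 6 := by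
      rw [← Set.ncard_eq_toFinset_card _ hfin]
      exact p4 a
    have h2 : ∀ b ∈ hfin.toFinset,
        (Finset.univ.filter (fun v : V => v ∈ Y ∧ g v = b)).card ≤ 6 := by
      intro b _
      have := hY6 b
      rwa [Set.ncard_eq_toFinset_card', Set.toFinset_ofPred] at this
    have h3 := Finset.card_biUnion_le_card_mul hfin.toFinset
      (fun b => Finset.univ.filter (fun v : V => v ∈ Y ∧ g v = b)) 6 h2
    have h4 : {v | v ∈ Y ∧ p (g v) = a}.ncard ≤ (hfin.toFinset.biUnion
        (fun b => Finset.univ.filter (fun v : V => v ∈ Y ∧ g v = b))).card := by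
      rw [← Set.ncard_coe_finset]
      apply Set.ncard_le_ncard _ (Finset.finite_toSet _)
      rintro v ⟨hv1, hv2⟩
      simp only [Finset.coe_biUnion, Set.mem_iUnion, Finset.mem_coe, Set.Finite.mem_toFinset,
        Finset.mem_filter, Finset.mem_univ, true_and]
      refine ⟨g v, ⟨(hY5 v hv1).1, ?_, hv2⟩, hv1, rfl⟩
      have := (hY5 v hv1).2
      push_cast
      linarith
    calc {v | v ∈ Y ∧ p (g v) = a}.ncard ≤ _ := h4
      _ ≤ hfin.toFinset.card * 6 := h3
      _ ≤ 6 * 6 := by gcongr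
      _ = 36 := rfl

end Pool.Agent.W701.PS.Fstep
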